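import Pool.Agent.Lib.UIPQ.C.Final

/-!
# MP_3dd72d_pr: harmonic functions of polynomial growth on the UIPQ

On the uniform infinite planar quadrangulation, almost surely, for every `k` the space of the harmonic
functions `h` with `|h x| ≤ C (1 + d(ρ, x)) ^ k` is finite dimensional.
-/

namespace Pool.Agent.Results.MP_3dd72d_pr.FiniteDimensional

open MeasureTheory UIPQ

theorem result {Ω : Type} [MeasurableSpace Ω] (P : Measure Ω) [IsProbabilityMeasure P]
    (M : Ω → CMap ℕ) (h : IsUIPQ P M) :
    ∀ᵐ ω ∂P, ∀ (hm : (M ω).LocFinite) (k : ℝ), FiniteDimensional ℝ (polyHarmonic (M ω) 0 hm k) :=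
  final_thm P M h

end Pool.Agent.Results.MP_3dd72d_pr.FiniteDimensional
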